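import Pool.Agent.H27.PB.All
import Pool.Agent.H27.PB.Win

set_option autoImplicit false

/-!
# `R_H(x) ≥ 1 - δ`, respectively `R_H(x) ≤ 1 + δ`, for all windows at the points `x = α ^ b n`

`R_H(x) = (log x / H) (π(x + H) - π(x))`. Let `δ, ρ ∈ (0, 1)`. There are `K, λ, κ > 0` such that for EVERY real sequence
`b n → ∞` and all weights `w n ≥ 0` with divergent sum whose sums over the blocks `2 ^ k ≤ b n < 2 ^ (k + 1)` are bounded,
for almost every `α > 1` and all large `N`: the `n < N` for which `x = α ^ b n` satisfies `1 - δ ≤ R_H(x) ≤ λ` for ALL real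
`H` with `K log x ≤ H ≤ x ^ (1 - ρ)` have at least the proportion `κ` of the weight of all `n < N`, and so have the `n < N`
for which `x = α ^ b n` satisfies `R_H(x) ≤ 1 + δ` for ALL these `H`. All `H = (log x) ^ a`, `a ≥ 2`, with
`(log x) ^ a ≤ x ^ (1 - ρ)` are among the `H` if `log x ≥ K`.
-/

namespace Pool.Agent.Results.MP_b09185_nt.AllWindowsAtPowers

open Filter MeasureTheory

/-- `R_H(x) = (log x / H) (π(x + H) - π(x))` -/
noncomputable def R (H x : ℝ) : ℝ :=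
  Real.log x / H * ((Nat.primeCounting ⌊x + H⌋₊ : ℝ) - Nat.primeCounting ⌊x⌋₊)

/-- `R_H(x) ∈ I` for all `H` with `K log x ≤ H ≤ x ^ (1 - ρ)` -/
def AllWindows (ρ K : ℝ) (I : Set ℝ) (x : ℝ) : Prop := ∀ H : ℝ, K * Real.log x ≤ H → H ≤ x ^ (1 - ρ) → R H x ∈ I

/-- the weights `w n` of the `n` with `2 ^ k ≤ b n < 2 ^ (k + 1)` have a bounded sum -/
def BoundedOnBlocks (b w : ℕ → ℝ) : Prop :=
  ∃ M : ℝ, ∀ k : ℕ, ∀ F : Finset ℕ, (∀ n ∈ F, (2 : ℝ) ^ k ≤ b n ∧ b n < 2 ^ (k + 1)) →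
    ∑ n ∈ F, w n ≤ M

open Classical in
/-- For all `δ, ρ ∈ (0, 1)` there are `K, lam, κ > 0` such that for every real sequence `b n → ∞` and all weights `w n ≥ 0`
whose sum diverges and whose sums over the blocks `2 ^ k ≤ b n < 2 ^ (k + 1)` are bounded: for almost every `α > 1`, for
all large `N`, the `n < N` with `1 - δ ≤ R_H(α ^ b n) ≤ lam` for all `K log x ≤ H ≤ x ^ (1 - ρ)`, `x = α ^ b n`, carry at
least the proportion `κ` of the weight of all `n < N`, and the same holds for the `n < N` with `R_H(α ^ b n) ≤ 1 + δ` for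
all these `H`. -/
theorem result (δ ρ : ℝ) (hδ0 : 0 < δ) (hδ1 : δ < 1) (hρ0 : 0 < ρ) (hρ1 : ρ < 1) :
    ∃ K lam κ : ℝ, 0 < K ∧ 0 < lam ∧ 0 < κ ∧
      ∀ b w : ℕ → ℝ, Tendsto b atTop atTop → (∀ n, 0 ≤ w n) → BoundedOnBlocks b w →
        Tendsto (fun N : ℕ => ∑ n ∈ Finset.range N, w n) atTop atTop →
        ∀ᵐ α : ℝ, 1 < α → ∀ᶠ N : ℕ in atTop,
          κ * ∑ n ∈ Finset.range N, w n ≤
            ∑ n ∈ (Finset.range N).filter (fun n : ℕ => AllWindows ρ K (Set.Icc (1 - δ) lam) (α ^ b n)), w n ∧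
          κ * ∑ n ∈ Finset.range N, w n ≤
            ∑ n ∈ (Finset.range N).filter (fun n : ℕ => AllWindows ρ K (Set.Iic (1 + δ)) (α ^ b n)), w n := by
  obtain ⟨K, lam, κ, hK, hlam, hκ, h⟩ := Pool.Agent.H27.PB.final δ ρ hδ0 hδ1 hρ0 hρ1
  refine ⟨K, lam, κ / 2, hK, hlam, by positivity, ?_⟩
  intro b w hb hw hm hdiv
  filter_upwards [h b w hb hw hm hdiv] with α hα hα1
  have h1 := hα hα1
  have hx : ∀ n, 1 ≤ b n → 1 < α ^ b n := fun n hn => Real.one_lt_rpow hα1 (by linarith)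
  have h2 := Pool.Agent.H27.PB.drop_finite b w hb hw hdiv κ hκ
    (fun n : ℕ => Pool.Agent.H27.PB.Many δ ρ K lam (α ^ b n))
    (fun n : ℕ => AllWindows ρ K (Set.Icc (1 - δ) lam) (α ^ b n))
    (fun n hn hP => Pool.Agent.H27.PB.many_win δ ρ K lam _ hK (hx n hn) hP) (h1.mono fun N hN => hN.1)
  have h3 := Pool.Agent.H27.PB.drop_finite b w hb hw hdiv κ hκ
    (fun n : ℕ => Pool.Agent.H27.PB.Few δ ρ K (α ^ b n))
    (fun n : ℕ => AllWindows ρ K (Set.Iic (1 + δ)) (α ^ b n))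
    (fun n hn hP => Pool.Agent.H27.PB.few_win δ ρ K _ hK (hx n hn) hP) (h1.mono fun N hN => hN.2)
  filter_upwards [h2, h3] with N g1 g2
  exact ⟨g1, g2⟩

end Pool.Agent.Results.MP_b09185_nt.AllWindowsAtPowers
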