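import Pool.Agent.H26.OS.QAT
import Pool.Agent.H26.OS.NUM
import Pool.Agent.H26.OS.WIN
import Pool.Agent.H26.OS.SCE
import Pool.Agent.H26.OS.GEN
import Pool.Agent.H26.OS.DV
import Pool.Agent.H26.OS.DR
import Pool.Agent.H26.OS.ALM
import Pool.Agent.H26.OS.FRQ
import Pool.Agent.H26.OS.UPE
import Pool.Agent.H26.OS.UPP
import Pool.Agent.H58.OI.THK

/-!
# MP_b09185_nt: the order of independence behind `L_a → 1`, `U_a → 1`

For a set `A` of positive integers let `R_a(x)` be the number of elements of `A` in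
`(x, x + (log x)^a]` divided by `(log x)^a / log x`, and let `L_a`, `U_a` be its lower and upper limits as
`x → ∞`. The question is whether `L_a → 1` and `U_a → 1` as `a → ∞` if `A` is the set of primes. In Cramér's
random model every integer `n ≥ 3` belongs to `A` with probability `1 / log n`, independently, and
almost surely `L_a = U_a = 1` for all `a > 2`. What is known or conjectured about the correlations of the
primes concerns correlations of bounded (or slowly growing) order. In the model with independence of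
order `κ` only those sets `T` of events have to be independent whose number of elements is at most `κ n` for
all `n ∈ T`. How many correlations determine the answer?

**Theorem.** (1) If `κ n ≥ (c - o(1)) log n / log log n` with `c > 0`, then in EVERY model of order `κ` almost
surely `L_a = U_a = 1` for all `a > 2 + 2 / c`.

(2) This is best possible: if `κ n ≤ (c + o(1)) log n / log log n` with `c ≥ 0`, then there is a model of
order `κ` in which almost surely `L_a = 0` and `U_a = ∞` for all `a > 0` with `a < 2 + 2 / c` (for ALL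
`a > 0` if `c = 0`).

(3) For nondecreasing `κ` the following alternative holds. Either `κ n ≥ c log n / log log n` for some
`c > 0` and all large `n`; then in every model of order `κ` almost surely `L_a = U_a = 1` for all
sufficiently large `a`, so that `L_a → 1` and `U_a → 1` as `a → ∞`. Or there is a model of order `κ` in which
almost surely `L_a = 0` and `U_a = ∞` for all `a > 0`.

So the order `log x / log log x` is the exact threshold for the answer `yes` to the question: no
assumption on the correlations of a smaller order (for instance, of all bounded orders) implies even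
`L_a > 0` or `U_a < ∞` for one `a`.

On the proof. (1) is the moment method. For (2) the law of the number of points in an interval of length
`(log x)^a` is changed: the binomial law is replaced by the law with the same moments up to the order
`k` (about `c log x / log log x`) and with mass about `(k / μ)^(k / 2)`, `μ` the mean, at a prescribed
value `y`, for `y = 0` (empty interval) and for `y` a large multiple of `μ`; since `a < 2 + 2 / c` this mass
is at least `x^(γ - 1)`. The law is made from Lagrange interpolation at `y` with equally spaced nodes in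
the bulk of the binomial law. Independent copies of these laws are put into disjoint intervals.
-/

set_option autoImplicit false

namespace Pool.Agent.Results.MP_b09185_nt.OrderOfIndependence

open MeasureTheory Filter Topology Pool.Agent.H26.OS

/-- Cramér's random primes with independence of order `κ`: `E n` is the event that the integer `n`
belongs to the random set. For every finite set `T` of integers `n ≥ 3` with at most `κ n` elements
for all `n ∈ T`, the probability that `T` is contained in the random set is `∏ 1 / log n`. -/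
structure CramerModel {Ω : Type} [MeasurableSpace Ω] (P : Measure Ω) (κ : ℕ → ℕ)
    (E : ℕ → Set Ω) : Prop where
  meas : ∀ n, MeasurableSet (E n)
  indep : ∀ T : Finset ℕ, (∀ n ∈ T, 3 ≤ n ∧ T.card ≤ κ n) →
    P (⋂ n ∈ T, E n) = ENNReal.ofReal (∏ n ∈ T, 1 / Real.log n)

/-- In every model of order `κ` the random set `{n | ω ∈ E n}` has the property `Q` almost
surely. -/
def InEveryModel (κ : ℕ → ℕ) (Q : Set ℕ → Prop) : Prop :=
  ∀ (Ω : Type) [MeasurableSpace Ω] (P : Measure Ω) [IsProbabilityMeasure P] (E : ℕ → Set Ω),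
    CramerModel P κ E → ∀ᵐ ω ∂P, Q {n | ω ∈ E n}

/-- In some model of order `κ` the random set `{n | ω ∈ E n}` has the property `Q` almost
surely. -/
def InSomeModel (κ : ℕ → ℕ) (Q : Set ℕ → Prop) : Prop :=
  ∃ (Ω : Type) (_ : MeasurableSpace Ω) (P : Measure Ω) (_ : IsProbabilityMeasure P)
    (E : ℕ → Set Ω), CramerModel P κ E ∧ ∀ᵐ ω ∂P, Q {n | ω ∈ E n}

/-- `κ n ≥ (c - o(1)) log n / log log n` -/
def AtLeast (κ : ℕ → ℕ) (c : ℝ) : Prop :=
  ∀ d : ℝ, d < c → ∀ᶠ n : ℕ in atTop, d * (Real.log n / Real.log (Real.log n)) ≤ κ n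

/-- `κ n ≤ (c + o(1)) log n / log log n` -/
def AtMost (κ : ℕ → ℕ) (c : ℝ) : Prop :=
  ∀ d : ℝ, c < d → ∀ᶠ n : ℕ in atTop, (κ n : ℝ) ≤ d * (Real.log n / Real.log (Real.log n))

/-- `R_h(x)` for `h = (log x)^a`: the number of elements of `A` in `(x, x + (log x)^a]`, times
`log x / (log x)^a`. -/
noncomputable def R (A : Set ℕ) (a x : ℝ) : ℝ := Real.log x / Real.log x ^ a *
  ({n : ℕ | n ∈ A ∧ x < n ∧ (n : ℝ) ≤ x + Real.log x ^ a}.ncard : ℝ)

/-- `L_a`, with values in `[-∞, ∞]` -/
noncomputable def L (A : Set ℕ) (a : ℝ) : EReal :=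
  liminf (fun x : ℝ => ((R A a x : ℝ) : EReal)) atTop

/-- `U_a`, with values in `[-∞, ∞]` -/
noncomputable def U (A : Set ℕ) (a : ℝ) : EReal :=
  limsup (fun x : ℝ => ((R A a x : ℝ) : EReal)) atTop

lemma every {κ : ℕ → ℕ} {c : ℝ} (hc : 0 < c) (hκ : AtLeast κ c) :
    InEveryModel κ fun A => ∀ a : ℝ, 2 + 2 / c < a → L A a = 1 ∧ U A a = 1 := by
  intro Ω _ P _ E hM
  filter_upwards [upp upe Ω P κ E c hc ⟨hM.meas, hM.indep⟩ hκ] with ω hω a ha
  have h1 := hω a ha
  have h2 : Tendsto (fun x : ℝ => ((R {n | ω ∈ E n} a x : ℝ) : EReal)) atTop (𝓝 ((1 : ℝ) : EReal)) :=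
    (continuous_coe_real_ereal.tendsto (1 : ℝ)).comp h1
  exact ⟨h2.liminf_eq, h2.limsup_eq⟩

lemma some_model {κ : ℕ → ℕ} {c : ℝ} (hc : 0 ≤ c)
    (h : ∀ d : ℝ, c < d → ∃ᶠ i : ℕ in atTop, Blk κ d i) :
    InSomeModel κ fun A => ∀ a : ℝ, 0 < a → c * (a - 2) < 2 → L A a = 0 ∧ U A a = ⊤ := by
  have hgen := gen sce (win qat num Pool.Agent.H58.OI.thk)
  have hr : ∀ r : ℕ, (0:ℝ) < (r : ℝ) + 1 := fun r => by positivity
  obtain ⟨Ω, mΩ, P, hP, E, hM, hae⟩ := hgen κ (fun r => c + 1 / ((r : ℝ) + 1))
    (fun r => 2 + 2 / (c + 2 / ((r : ℝ) + 1))) (fun r => by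
      have h1 := hr r
      have h2 : 0 < 1 / ((r : ℝ) + 1) := by positivity
      have h3 : 0 < c + 2 / ((r : ℝ) + 1) := by positivity
      refine ⟨by positivity, by
        have : 0 < 2 / (c + 2 / ((r : ℝ) + 1)) := by positivity
        linarith, ?_⟩
      have e : 2 + 2 / (c + 2 / ((r : ℝ) + 1)) - 2 = 2 / (c + 2 / ((r : ℝ) + 1)) := by ring
      rw [e, mul_div_assoc', div_lt_iff₀ h3]
      have e2 : 2 / ((r : ℝ) + 1) = 2 * (1 / ((r : ℝ) + 1)) := by ring
      rw [e2]
      linarith) (fun r => h _ (by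
      have : 0 < 1 / ((r : ℝ) + 1) := by positivity
      linarith))
  refine ⟨Ω, mΩ, P, hP, E, ⟨hM.meas, hM.indep⟩, ?_⟩
  filter_upwards [hae] with ω hω a ha hca
  obtain ⟨r₁, hr₁⟩ := eventually_atTop.1 hω
  -- large `r` have `a ≤ a_r`
  obtain ⟨r₂, hr₂⟩ : ∃ r₂ : ℕ, ∀ r : ℕ, r₂ ≤ r → a ≤ 2 + 2 / (c + 2 / ((r : ℝ) + 1)) := by
    rcases le_or_gt a 2 with h2 | h2
    · refine ⟨0, fun r _ => ?_⟩
      have : 0 < 2 / (c + 2 / ((r : ℝ) + 1)) := by positivity
      linarith
    · obtain ⟨r₂, hr₂⟩ := exists_nat_ge (2 * (a - 2) / (2 - c * (a - 2)))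
      refine ⟨r₂, fun r hr' => ?_⟩
      have h3 : 0 < c + 2 / ((r : ℝ) + 1) := by positivity
      have h4 : a - 2 ≤ 2 / (c + 2 / ((r : ℝ) + 1)) := by
        rw [le_div_iff₀ h3]
        have h5 : (r₂ : ℝ) ≤ r := by exact_mod_cast hr'
        have h6 : 2 * (a - 2) / (2 - c * (a - 2)) ≤ (r : ℝ) + 1 := by linarith
        rw [div_le_iff₀ (by linarith)] at h6
        have h7 : 2 * (a - 2) / ((r : ℝ) + 1) ≤ 2 - c * (a - 2) := by
          rw [div_le_iff₀ (by positivity)]
          linarith
        have h8 : (a - 2) * (c + 2 / ((r : ℝ) + 1)) = c * (a - 2) + 2 * (a - 2) / ((r : ℝ) + 1) := by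
          ring
        linarith
      linarith
  constructor
  · apply dv _ _ ha
    intro r₀
    refine ⟨max r₀ (max r₁ r₂), le_max_left _ _, _, hr₂ _ ?_, (hr₁ _ ?_).1⟩
    · exact (le_max_right _ _).trans (le_max_right _ _)
    · exact (le_max_left _ _).trans (le_max_right _ _)
  · apply dr _ _ ha
    intro r₀
    refine ⟨max r₀ (max r₁ r₂), le_max_left _ _, _, hr₂ _ ?_, (hr₁ _ ?_).2⟩
    · exact (le_max_right _ _).trans (le_max_right _ _)
    · exact (le_max_left _ _).trans (le_max_right _ _)

/-- The order of independence behind `L_a → 1`, `U_a → 1`. -/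
theorem result :
    -- (1) in every model
    (∀ (κ : ℕ → ℕ) (c : ℝ), 0 < c → AtLeast κ c →
      InEveryModel κ fun A => ∀ a : ℝ, 2 + 2 / c < a → L A a = 1 ∧ U A a = 1) ∧
    -- (2) the exponent `2 + 2 / c` is best possible
    (∀ (κ : ℕ → ℕ) (c : ℝ), 0 ≤ c → AtMost κ c →
      InSomeModel κ fun A => ∀ a : ℝ, 0 < a → c * (a - 2) < 2 → L A a = 0 ∧ U A a = ⊤) ∧
    -- (3) the threshold
    (∀ κ : ℕ → ℕ, Monotone κ →
      ((InEveryModel κ fun A => Tendsto (L A) atTop (𝓝 1) ∧ Tendsto (U A) atTop (𝓝 1)) ↔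
        ∃ c : ℝ, 0 < c ∧ ∀ᶠ n : ℕ in atTop,
          c * (Real.log n / Real.log (Real.log n)) ≤ κ n) ∧
      ((¬ ∃ c : ℝ, 0 < c ∧ ∀ᶠ n : ℕ in atTop,
          c * (Real.log n / Real.log (Real.log n)) ≤ κ n) →
        InSomeModel κ fun A => ∀ a : ℝ, 0 < a → L A a = 0 ∧ U A a = ⊤)) := by
  have h3 : ∀ κ : ℕ → ℕ, Monotone κ → (¬ ∃ c : ℝ, 0 < c ∧ ∀ᶠ n : ℕ in atTop,
      c * (Real.log n / Real.log (Real.log n)) ≤ κ n) →
      InSomeModel κ fun A => ∀ a : ℝ, 0 < a → L A a = 0 ∧ U A a = ⊤ := by
    intro κ hmono hκ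
    obtain ⟨Ω, mΩ, P, hP, E, hM, hae⟩ := some_model (c := 0) le_rfl (frq κ hmono hκ)
    refine ⟨Ω, mΩ, P, hP, E, hM, ?_⟩
    filter_upwards [hae] with ω hω a ha
    exact hω a ha (by simp)
  refine ⟨fun κ c hc hκ => every hc hκ, ?_, ?_⟩
  · intro κ c hc hκ
    exact some_model hc fun d hd => (alm κ c d hc hd hκ).frequently
  · intro κ hmono
    refine ⟨⟨?_, ?_⟩, h3 κ hmono⟩
    · intro h
      by_contra hκ
      obtain ⟨Ω, mΩ, P, hP, E, hM, hae⟩ := h3 κ hmono hκ
      obtain ⟨ω, h1, h2⟩ := ((h Ω P E hM).and hae).exists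
      have h4 : Tendsto (L {n | ω ∈ E n}) atTop (𝓝 0) := by
        apply tendsto_const_nhds.congr'
        filter_upwards [eventually_gt_atTop 0] with a ha
        exact (h2 a ha).1.symm
      have h5 := tendsto_nhds_unique h1.1 h4
      exact one_ne_zero h5
    · rintro ⟨c, hc, hκ⟩ Ω _ P _ E hM
      have h1 : AtLeast κ c := by
        intro d hd
        have h2 : ∀ᶠ n : ℕ in atTop, 0 ≤ Real.log n / Real.log (Real.log n) := by
          have h3 : Tendsto (fun n : ℕ => Real.log (n : ℝ)) atTop atTop :=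
            Real.tendsto_log_atTop.comp tendsto_natCast_atTop_atTop
          filter_upwards [h3.eventually_ge_atTop 1] with n hn
          exact div_nonneg (by linarith) (Real.log_nonneg hn)
        filter_upwards [hκ, h2] with n h4 h5
        exact (mul_le_mul_of_nonneg_right hd.le h5).trans h4
      filter_upwards [every hc h1 Ω P E hM] with ω hω
      constructor
      · apply tendsto_const_nhds.congr'
        filter_upwards [eventually_gt_atTop (2 + 2 / c)] with a ha
        exact (hω a ha).1.symm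
      · apply tendsto_const_nhds.congr'
        filter_upwards [eventually_gt_atTop (2 + 2 / c)] with a ha
        exact (hω a ha).2.symm

end Pool.Agent.Results.MP_b09185_nt.OrderOfIndependence
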