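import Pool.Agent.H41.PM.Fin

/-! # Generalised primes with prescribed behaviour in the intervals `(x, x + (log x)^a]`

For a system of Beurling generalised primes with the prime number theorem the lower and upper limits `L a`, `U a` of
the normalised number of members of `(x, x + (log x)^a]` are monotone functions of `a > 1` with `L a ≤ 1 ≤ U a`. Every pair of
such functions occurs for a system which satisfies the Riemann hypothesis in the strong form
`π(x) = li(x) + O(x^ε)` and whose generalised integers have a density with error `O(x^(1/2+ε))`. -/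

set_option autoImplicit false

open MeasureTheory Filter Topology Set

namespace Pool.Agent.Results.MP_b09185_nt.PrescribedMaierFunctions

/-- A system of Beurling generalised primes `1 < p 0 < p 1 < ...` tending to infinity. -/
structure IsSystem (p : ℕ → ℝ) : Prop where
  one_lt : 1 < p 0
  strictMono : StrictMono p
  tendsto : Tendsto p atTop atTop

/-- The number of generalised primes `≤ x`. -/
noncomputable def primeCount (p : ℕ → ℝ) (x : ℝ) : ℕ := {n : ℕ | p n ≤ x}.ncard

/-- The number of generalised integers `≤ x`, that is of finite products `∏ p k ^ a k` (families of exponents `a k : ℕ`, only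
finitely many different from `0`). -/
noncomputable def integerCount (p : ℕ → ℝ) (x : ℝ) : ℕ :=
  {a : ℕ →₀ ℕ | (a.prod fun k e => p k ^ e) ≤ x}.ncard

/-- The number of generalised primes in `(x, x + (log x)^a]`, divided by `(log x)^a / log x`. -/
noncomputable def R (p : ℕ → ℝ) (a x : ℝ) : ℝ :=
  Real.log x / Real.log x ^ a * ((primeCount p (x + Real.log x ^ a) : ℝ) - primeCount p x)

/-- The lower limit of `R p a x`, in `[0, ∞]`. -/
noncomputable def L (p : ℕ → ℝ) (a : ℝ) : ENNReal := liminf (fun x : ℝ => ENNReal.ofReal (R p a x)) atTop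

/-- The upper limit of `R p a x`, in `[0, ∞]`. -/
noncomputable def U (p : ℕ → ℝ) (a : ℝ) : ENNReal := limsup (fun x : ℝ => ENNReal.ofReal (R p a x)) atTop

theorem result :
    -- the functions of every system with the prime number theorem
    (∀ p : ℕ → ℝ, IsSystem p → Tendsto (fun x => (primeCount p x : ℝ) * Real.log x / x) atTop (𝓝 1) →
      MonotoneOn (L p) (Ioi 1) ∧ AntitoneOn (U p) (Ioi 1) ∧ ∀ a, 1 < a → L p a ≤ 1 ∧ 1 ≤ U p a) ∧
    -- all such functions occur
    (∀ l u : ℝ → ENNReal, MonotoneOn l (Ioi 1) → AntitoneOn u (Ioi 1) → (∀ a, 1 < a → l a ≤ 1 ∧ 1 ≤ u a) →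
      ∃ p : ℕ → ℝ, IsSystem p ∧
        (∀ ε : ℝ, 0 < ε → ∃ A : ℝ, ∀ x : ℝ, 2 ≤ x →
          |(primeCount p x : ℝ) - ∫ t in (2 : ℝ)..x, 1 / Real.log t| ≤ A * x ^ ε) ∧
        (∃ c : ℝ, 0 < c ∧ ∀ ε : ℝ, 0 < ε → ∃ A : ℝ, ∀ x : ℝ, 1 ≤ x →
          |(integerCount p x : ℝ) - c * x| ≤ A * x ^ (1 / 2 + ε)) ∧
        ∀ a, 1 < a → L p a = l a ∧ U p a = u a) := by
  refine ⟨fun p hp hpnt => ?_, fun l u hl hu hlu => ?_⟩
  · exact Pool.Agent.H41.PM.main_conv p ⟨hp.one_lt, hp.strictMono, hp.tendsto⟩ hpnt
  · obtain ⟨p, hs, h1, h2, h3⟩ := Pool.Agent.H41.PM.main_thm l u hl hu (fun a ha => (hlu a ha).1) (fun a ha => (hlu a ha).2)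
    exact ⟨p, ⟨hs.one_lt, hs.strictMono, hs.tendsto⟩, h1, h2, h3⟩

end Pool.Agent.Results.MP_b09185_nt.PrescribedMaierFunctions
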