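import Pool.Agent.H50.BF.FIN
import Pool.Agent.H50.BF.LIB
import Pool.Agent.H50.BF.MAIN
import Pool.Agent.H50.BF.LIM
import Pool.Agent.H50.BF.EXTA
import Pool.Agent.H50.BF.EXTB
import Pool.Agent.H50.BF.SIGA
import Pool.Agent.H50.BF.SIGC
import Pool.Agent.H50.BF.SUB
import Pool.Agent.H50.BF.AP
import Pool.Agent.H50.BF.BT
import Pool.Agent.H50.BF.CRT
import Pool.Agent.H50.BF.CONC
import Pool.Agent.H50.BF.ONE
import Pool.Agent.H50.BF.TAIL
import Pool.Agent.H50.BF.DSUM
import Pool.Agent.H50.BF.IND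
import Pool.Agent.H50.BF.MGF
import Pool.Agent.H50.BF.TRANS
import Pool.Agent.H50.BF.GRA
import Pool.Agent.H50.BF.EXM
import Pool.Agent.H50.LS.LSS
import Pool.Agent.H50.LS.CLS
import Pool.Agent.H50.LS.PHI
import Pool.Agent.H50.LS.NUM
import Pool.Agent.H50.LS.JRL
import Pool.Agent.H50.LS.FINC
import Pool.Agent.H50.LS.LSU
import Pool.Agent.H50.LS.CLU
import Pool.Agent.H50.LS.PHU
import Pool.Agent.H50.LS.NUU
import Pool.Agent.H50.LS.AZ
import Pool.Agent.H50.LS.JRU
import Pool.Agent.H50.LS.FINU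
import Pool.Agent.H50.LS.JRG
import Pool.Agent.H50.LS.QID
import Pool.Agent.H50.LS.QGA
import Pool.Agent.H50.LS.FINR

/-!
# Intervals of length `(log x)^s` in the random sieve of Banks, Ford and Tao and in Granville's model

Banks, Ford and Tao: remove a random residue class for every prime `p` and keep the integers `n`
which are not in the classes removed for the primes `p ≤ z n`, where `∏_{p ≤ z n} (1 - 1/p)` is
asymptotic to `1 / log n`.  We show that almost surely, for all real `s > 2`, the limits `L_s` and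
`U_s` of this random set are the extremal densities of a deterministic problem, the interval sieve:
the smallest and the largest number of integers without prime factors `≤ w` in an interval of length
`w^s`, divided by `w^s ∏_{p ≤ w} (1 - 1/p)`, `w → ∞`.  The same holds in Granville's refinement of
Cramér's model.  The extremal densities are monotone in `s`, different from `1` (Maier's
phenomenon) and tend to `1` as `s → ∞` (the statement of Q1).  They are bounded by the functions of the
linear sieve; in particular the lower one is positive for every `s > 2`, and both are within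
`2 e^γ / Γ(s + 1)` of `1`.
-/

set_option autoImplicit false

open MeasureTheory Filter Set
open scoped Topology ENNReal

namespace Pool.Agent.Results.MP_b09185_nt.RandomSieveExtremes

/-- the number of members of `S` in the interval `(x, x + y]` -/
noncomputable def count (S : Set ℕ) (x y : ℝ) : ℕ := Set.ncard {m : ℕ | m ∈ S ∧ x < m ∧ (m : ℝ) ≤ x + y}

/-- `R_{(log x)^s}(x)`, with the members of `S` in place of the primes -/
noncomputable def R (S : Set ℕ) (s x : ℝ) : ℝ :=
  Real.log x / Real.log x ^ s * count S x (Real.log x ^ s)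

/-- the upper limit `U_s`, in `[0, ∞]` -/
noncomputable def U (S : Set ℕ) (s : ℝ) : ℝ≥0∞ := limsup (fun x : ℝ => ENNReal.ofReal (R S s x)) atTop

/-- the lower limit `L_s`, in `[0, ∞]` -/
noncomputable def L (S : Set ℕ) (s : ℝ) : ℝ≥0∞ := liminf (fun x : ℝ => ENNReal.ofReal (R S s x)) atTop

/-- `∏_{p ≤ y} (1 - 1/p)` -/
noncomputable def mertens (y : ℕ) : ℝ := ∏ p ∈ (Finset.Icc 1 y).filter Nat.Prime, (1 - (p : ℝ)⁻¹)

/-- `n` has no prime factor `≤ w` -/
def Rough (w n : ℕ) : Prop := ∀ p : ℕ, p.Prime → p ∣ n → w < p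

/-- the number of the integers without prime factors `≤ w` in the interval `(t, t + w^s]`, divided by
the expected number `w^s ∏_{p ≤ w} (1 - 1/p)` -/
noncomputable def roughDensity (w : ℕ) (s : ℝ) (t : ℕ) : ℝ :=
  (Set.ncard {m : ℕ | t < m ∧ (m : ℝ) ≤ t + (w : ℝ) ^ s ∧ Rough w m} : ℝ) / ((w : ℝ) ^ s * mertens w)

/-- the lower extremal density of the interval sieve: the sparsest intervals of length `w^s`, `w → ∞` -/
noncomputable def sparsest (s : ℝ) : ℝ≥0∞ :=
  liminf (fun w : ℕ => ⨅ t : ℕ, ENNReal.ofReal (roughDensity w s t)) atTop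

/-- the upper extremal density of the interval sieve: the densest intervals of length `w^s`, `w → ∞` -/
noncomputable def densest (s : ℝ) : ℝ≥0∞ :=
  limsup (fun w : ℕ => ⨆ t : ℕ, ENNReal.ofReal (roughDensity w s t)) atTop

/-- The residues of the random integers `a p` modulo the primes `p` are independent, and the residue
of `a p` modulo `p` is uniformly distributed: for all prescribed residues `c p < p`, `p ≤ w`, the
probability of `a p ≡ c p (mod p)` for all primes `p ≤ w` is `∏_{p ≤ w} 1/p`. -/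
structure RandomResidues {Ω : Type} [MeasurableSpace Ω] (P : Measure Ω) (a : ℕ → Ω → ℕ) : Prop where
  meas : ∀ p, Measurable (a p)
  law : ∀ (w : ℕ) (c : ℕ → ℕ), (∀ p : ℕ, p.Prime → c p < p) →
    P {ω | ∀ p : ℕ, p.Prime → p ≤ w → a p ω % p = c p} =
      ENNReal.ofReal (∏ p ∈ (Finset.Icc 1 w).filter Nat.Prime, (p : ℝ)⁻¹)

/-- the integers `n` with `n ≢ a p (mod p)` for all primes `p ≤ z n` -/
def randomSieve (a z : ℕ → ℕ) : Set ℕ := {n | ∀ p : ℕ, p.Prime → p ≤ z n → n % p ≠ a p % p}

/-- Granville's model: `A n` is the event that `n` is chosen.  The `A n` are adapted to the filtration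
`ℱ`, the integers `n` with a prime factor `≤ z n` are not chosen, and almost surely the conditional
probability of `A (n + 1)` given `ℱ n`, times `log n ∏_{p ≤ z (n + 1)} (1 - 1/p)`, tends to `1` along
the `n` for which `n + 1` has no prime factor `≤ z (n + 1)`. -/
structure GranvilleModel {Ω : Type} [m : MeasurableSpace Ω] (P : Measure Ω) (ℱ : Filtration ℕ m)
    (A : ℕ → Set Ω) (z : ℕ → ℕ) : Prop where
  meas : ∀ n, MeasurableSet[ℱ n] (A n)
  empty : ∀ n, ¬ Rough (z n) n → A n = ∅
  density : ∀ᵐ ω ∂P, Tendsto (fun n : ℕ => (P[(A (n + 1)).indicator (fun _ => (1 : ℝ)) | ℱ n]) ω *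
    (Real.log n * mertens (z (n + 1)))) (atTop ⊓ 𝓟 {n : ℕ | Rough (z (n + 1)) (n + 1)}) (𝓝 1)

open Pool.Agent.H50.BF

lemma mertens_MM (w : ℕ) : mertens w = (MM w)⁻¹ := by
  unfold mertens MM
  rw [Finset.prod_inv_distrib, inv_inv]

lemma rough_sv (w t U : ℕ) : Set.ncard {m : ℕ | t < m ∧ m ≤ t + U ∧ Rough w m} = sv (fun _ => 0) w t U := by
  classical
  have h : {m : ℕ | t < m ∧ m ≤ t + U ∧ Rough w m} =
      (((Finset.range U).filter (fun k => ∀ p : ℕ, p.Prime → p ≤ w → (t + k + 1) % p ≠ (fun _ => 0) p % p)).image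
        (fun k => t + k + 1) : Finset ℕ) := by
    ext m
    simp only [Set.mem_ofPred_eq, Finset.coe_image, Set.mem_image, Finset.mem_coe, Finset.mem_filter, Finset.mem_range]
    constructor
    · rintro ⟨h1, h2, h3⟩
      refine ⟨m - t - 1, ⟨by omega, ?_⟩, by omega⟩
      intro p hp hpw h0
      rw [show t + (m - t - 1) + 1 = m by omega, Nat.zero_mod] at h0
      exact absurd (h3 p hp (Nat.dvd_of_mod_eq_zero h0)) (not_lt.2 hpw)
    · rintro ⟨k, ⟨h1, h2⟩, rfl⟩
      refine ⟨by omega, by omega, ?_⟩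
      intro p hp hd
      by_contra hcon
      push Not at hcon
      refine h2 p hp hcon ?_
      rw [Nat.zero_mod]
      exact Nat.mod_eq_zero_of_dvd hd
  rw [h, Set.ncard_coe_finset, Finset.card_image_of_injective _ (fun x y h => by simpa using h)]
  unfold sv
  rfl

lemma roughDensity_vl (w : ℕ) (s : ℝ) (t : ℕ) : roughDensity w s t = vl w s t := by
  unfold roughDensity vl
  have h : {m : ℕ | t < m ∧ (m : ℝ) ≤ t + (w : ℝ) ^ s ∧ Rough w m} =
      {m : ℕ | t < m ∧ m ≤ t + ⌊(w : ℝ) ^ s⌋₊ ∧ Rough w m} := by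
    ext m
    simp only [Set.mem_ofPred_eq]
    refine and_congr_right fun h1 => and_congr_left fun _ => ?_
    have h0 : 0 ≤ (w : ℝ) ^ s := Real.rpow_nonneg (Nat.cast_nonneg _) _
    constructor
    · intro h2
      have h3 : ((m - t : ℕ) : ℝ) ≤ (w : ℝ) ^ s := by
        rw [Nat.cast_sub h1.le]
        linarith
      have := Nat.le_floor h3
      omega
    · intro h2
      have h3 : (m : ℝ) ≤ t + (⌊(w : ℝ) ^ s⌋₊ : ℝ) := by exact_mod_cast h2
      have := Nat.floor_le h0
      linarith
  rw [h, rough_sv, mertens_MM, ← div_div, div_inv_eq_mul]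
  ring

lemma iInf_lo (w : ℕ) (s : ℝ) : ⨅ t : ℕ, ENNReal.ofReal (roughDensity w s t) = ENNReal.ofReal (lo w s) := by
  have h : lo w s = ⨅ t : ℕ, roughDensity w s t := by
    unfold lo
    exact iInf_congr fun t => (roughDensity_vl w s t).symm
  rw [h]
  refine (Monotone.map_ciInf_of_continuousAt ENNReal.continuous_ofReal.continuousAt
    (fun _ _ h => ENNReal.ofReal_le_ofReal h) ?_).symm
  rw [show roughDensity w s = vl w s from funext (roughDensity_vl w s)]
  exact bddB w s

lemma iSup_hi (w : ℕ) (s : ℝ) : ⨆ t : ℕ, ENNReal.ofReal (roughDensity w s t) = ENNReal.ofReal (hi w s) := by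
  have h : hi w s = ⨆ t : ℕ, roughDensity w s t := by
    unfold hi
    exact iSup_congr fun t => (roughDensity_vl w s t).symm
  rw [h]
  refine (Monotone.map_ciSup_of_continuousAt ENNReal.continuous_ofReal.continuousAt
    (fun _ _ h => ENNReal.ofReal_le_ofReal h) ?_).symm
  rw [show roughDensity w s = vl w s from funext (roughDensity_vl w s)]
  exact bddA w s

lemma sparsest_sl (s : ℝ) : sparsest s = sl s := by
  unfold sparsest sl
  simp only [iInf_lo]

lemma densest_sh (s : ℝ) : densest s = sh s := by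
  unfold densest sh
  simp only [iSup_hi]

lemma trans' : S_TRANS := trans (ap (bt crt fund)) (bt crt fund) mert
lemma sub' : S_SUB := sub (bt crt fund) mert
lemma lim' : S_LIM := lim (exta crt sub') (extb crt trans' sub')

lemma L_eq {S : Set ℕ} {a : ℕ → ℕ} {s : ℝ} (hs : 2 < s)
    (h : ∀ ε : ℝ, 0 < ε → ∀ᶠ x : ℝ in atTop, |RR S s x - dens a s x| ≤ ε) :
    L S s = sparsest s ∧ U S s = densest s := by
  rw [sparsest_sl, densest_sh]
  exact lim' S a s hs h

/-- The limits `L_s` and `U_s` of the random sieve and of Granville's model. -/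
theorem result :
    -- random residues exist
    (∃ (Ω : Type) (_ : MeasurableSpace Ω) (P : Measure Ω) (a : ℕ → Ω → ℕ), RandomResidues P a) ∧
    -- the random sieve of Banks, Ford and Tao
    (∀ (Ω : Type) [MeasurableSpace Ω] (P : Measure Ω) (a : ℕ → Ω → ℕ) (z : ℕ → ℕ), RandomResidues P a →
      Monotone z → Tendsto (fun n : ℕ => Real.log n * mertens (z n)) atTop (𝓝 1) →
      ∀ᵐ ω ∂P, ∀ s : ℝ, 2 < s → L (randomSieve (fun p => a p ω) z) s = sparsest s ∧
        U (randomSieve (fun p => a p ω) z) s = densest s) ∧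
    -- Granville's model
    (∀ (Ω : Type) [m : MeasurableSpace Ω] (P : Measure Ω) [IsProbabilityMeasure P] (ℱ : Filtration ℕ m)
      (A : ℕ → Set Ω) (z : ℕ → ℕ), GranvilleModel P ℱ A z → Monotone z →
      Tendsto (fun n : ℕ => Real.log (z n) / Real.log (Real.log n)) atTop (𝓝 1) →
      ∀ᵐ ω ∂P, ∀ s : ℝ, 2 < s → L {n | ω ∈ A n} s = sparsest s ∧ U {n | ω ∈ A n} s = densest s) ∧
    -- the extremal densities
    (∀ s : ℝ, 2 < s → 0 < sparsest s ∧ sparsest s < 1 ∧ 1 < densest s ∧ densest s < ⊤) ∧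
    (∀ s : ℝ, 2 < s → s ≤ 4 →
      ENNReal.ofReal (2 * Real.exp Real.eulerMascheroniConstant * Real.log (s - 1) / s) ≤ sparsest s) ∧
    (∀ s : ℝ, 2 < s → s ≤ 3 → densest s ≤ ENNReal.ofReal (2 * Real.exp Real.eulerMascheroniConstant / s)) ∧
    (∀ s : ℝ, 2 < s →
      ENNReal.ofReal (1 - 2 * Real.exp Real.eulerMascheroniConstant / Real.Gamma (s + 1)) ≤ sparsest s ∧
      densest s ≤ ENNReal.ofReal (1 + 2 * Real.exp Real.eulerMascheroniConstant / Real.Gamma (s + 1))) ∧
    (∀ s s' : ℝ, 2 < s → s ≤ s' → sparsest s ≤ sparsest s' ∧ densest s' ≤ densest s) ∧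
    Tendsto sparsest atTop (𝓝 1) ∧ Tendsto densest atTop (𝓝 1) := by
  have hsiga : S_SIGA := siga sub'
  have hsigc : S_SIGC := sigc fund
  have hlow : ∀ s : ℝ, 2 < s → s ≤ 4 →
      ENNReal.ofReal (2 * Real.exp Real.eulerMascheroniConstant * Real.log (s - 1) / s) ≤ sparsest s := by
    intro s hs hs4
    rw [sparsest_sl]
    exact Pool.Agent.H50.LS.finc (Pool.Agent.H50.LS.jrl Pool.Agent.H50.LS.lss Pool.Agent.H50.LS.cls
      Pool.Agent.H50.LS.phi (Pool.Agent.H50.LS.num mert)) Pool.Agent.H50.LS.az s hs hs4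
  have hpos : ∀ s : ℝ, 2 < s → 0 < sparsest s := by
    intro s hs
    have h1 : 2 < min s 4 := lt_min hs (by norm_num)
    have h2 := hlow (min s 4) h1 (min_le_right _ _)
    have h3 : (0 : ℝ≥0∞) < ENNReal.ofReal (2 * Real.exp Real.eulerMascheroniConstant * Real.log (min s 4 - 1) / min s 4) := by
      rw [ENNReal.ofReal_pos]
      have h4 : 0 < Real.log (min s 4 - 1) := Real.log_pos (by linarith)
      have h5 : 0 < min s 4 := by linarith
      positivity
    refine (h3.trans_le h2).trans_le ?_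
    rw [sparsest_sl, sparsest_sl]
    exact sl_mono hsiga h1 (min_le_left _ _)
  have hrate : ∀ s : ℝ, 2 < s →
      ENNReal.ofReal (1 - 2 * Real.exp Real.eulerMascheroniConstant / Real.Gamma (s + 1)) ≤ sparsest s ∧
      densest s ≤ ENNReal.ofReal (1 + 2 * Real.exp Real.eulerMascheroniConstant / Real.Gamma (s + 1)) := by
    intro s hs
    rw [sparsest_sl, densest_sh]
    exact Pool.Agent.H50.LS.finr (Pool.Agent.H50.LS.jrg Pool.Agent.H50.LS.lss Pool.Agent.H50.LS.cls
      Pool.Agent.H50.LS.phi (Pool.Agent.H50.LS.num mert)) (Pool.Agent.H50.LS.jru Pool.Agent.H50.LS.lsu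
      Pool.Agent.H50.LS.clu Pool.Agent.H50.LS.phu (Pool.Agent.H50.LS.nuu mert)) Pool.Agent.H50.LS.az
      (Pool.Agent.H50.LS.qga Pool.Agent.H50.LS.qid) s hs
  refine ⟨?_, ?_, ?_, ?_, hlow, ?_, hrate, ?_, ?_, ?_⟩
  · obtain ⟨Ω, mΩ, P, a, h⟩ := exm
    exact ⟨Ω, mΩ, P, a, ⟨h.meas, h.law⟩⟩
  · intro Ω _ P a z hmod hz hlim
    have hcon : S_CON := con (tail (mgf ind one)) (dsum mert) mert
    have hlim' : Tendsto (fun n : ℕ => MM (z n) / Real.log n) atTop (𝓝 1) := by
      have h1 := hlim.inv₀ one_ne_zero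
      rw [inv_one] at h1
      refine h1.congr fun n => ?_
      rw [mertens_MM, mul_inv, inv_inv]
      ring
    filter_upwards [hcon Ω P a ⟨hmod.meas, hmod.law⟩] with ω hω s hs
    exact L_eq hs fun ε hε => main trans' sub' mert (fun q => a q ω) z hz hlim' hω s hs ε hε
  · intro Ω m P _ ℱ A z hmod hz hlim
    have hd : ∀ᵐ ω ∂P, Tendsto (fun n : ℕ => Pool.Agent.R528.RM.dens P ℱ A n ω * Real.log n /
        Pool.Agent.R528.RM.MM (z (n + 1)))
        (atTop ⊓ 𝓟 {n | Pool.Agent.R301.GM.Free (z (n + 1)) (n + 1)}) (𝓝 1) := by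
      filter_upwards [hmod.density] with ω hω
      refine hω.congr fun n => ?_
      rw [mertens_MM, ← mul_assoc, ← div_eq_mul_inv]
      rfl
    filter_upwards [granville (μ := P) hmod.meas hz hlim hmod.empty hd] with ω hω s hs
    exact L_eq hs fun ε hε => gra trans' sub' {n | ω ∈ A n} z hz hlim hω s hs ε hε
  · intro s hs
    refine ⟨hpos s hs, ?_⟩
    rw [sparsest_sl, densest_sh]
    exact ⟨sl_lt_one hsiga buch hs, one_lt_sh hsiga buch hs, sh_lt_top sub' hs⟩
  · intro s hs hs3
    rw [densest_sh]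
    exact Pool.Agent.H50.LS.finu (Pool.Agent.H50.LS.jru Pool.Agent.H50.LS.lsu Pool.Agent.H50.LS.clu
      Pool.Agent.H50.LS.phu (Pool.Agent.H50.LS.nuu mert)) Pool.Agent.H50.LS.az s (by linarith) hs3
  · intro s s' hs hs'
    rw [sparsest_sl, densest_sh, sparsest_sl, densest_sh]
    exact ⟨sl_mono hsiga hs hs', sh_anti hsiga hs hs'⟩
  · rw [show sparsest = sl from funext sparsest_sl]
    exact sl_tendsto hsiga hsigc buch
  · rw [show densest = sh from funext densest_sh]
    exact sh_tendsto hsiga hsigc buch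

end Pool.Agent.Results.MP_b09185_nt.RandomSieveExtremes
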